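import Pool.Agent.Helper18.RA.HSOL

set_option autoImplicit false

namespace Pool.Agent.Helper72.RA

namespace HDEG

open Real Filter

open scoped Classical

theorem arctan_lip (a b : ℝ) (h : a ≤ b) : arctan b - arctan a ≤ b - a := by
  have hm : Monotone (fun x : ℝ => x - arctan x) := by
    apply monotone_of_deriv_nonneg
    · intro x
      exact ((hasDerivAt_id x).sub (Real.hasDerivAt_arctan x)).differentiableAt
    · intro x
      have h := ((hasDerivAt_id x).sub (Real.hasDerivAt_arctan x)).deriv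
      have h' : deriv (fun x : ℝ => x - arctan x) x = 1 - 1 / (1 + x ^ 2) := h
      rw [h']
      have h1 : 1 / (1 + x ^ 2) ≤ 1 := by
        rw [div_le_one (by positivity)]
        nlinarith [sq_nonneg x]
      linarith
  have := hm h
  simp only at this
  linarith

/-- the angle lies in a short interval -/
theorem interval (sg rx w T : ℝ) (hs0 : 0 < sg) (hT0 : 0 ≤ T) (hw0 : 0 ≤ w) (hr : w ≤ rx)
    (S : ℝ) (hS0 : 0 ≤ S) (hS : S ^ 2 = T ^ 2 - sg ^ 2) (hrS : |rx - S| ≤ w) :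
    √((rx - w) ^ 2 + sg ^ 2) ≤ T ∧ T ≤ √((rx - w) ^ 2 + sg ^ 2) + 2 * w := by
  rw [abs_le] at hrS
  have h1 : 0 ≤ rx - w := by linarith
  constructor
  · rw [Real.sqrt_le_left hT0]
    have : (rx - w) ^ 2 ≤ S ^ 2 := by
      apply pow_le_pow_left₀ h1
      linarith [hrS.2]
    linarith
  · set y := √((rx - w) ^ 2 + sg ^ 2) with hy
    have hy0 : 0 ≤ y := Real.sqrt_nonneg _
    have hy2 : y ^ 2 = (rx - w) ^ 2 + sg ^ 2 := Real.sq_sqrt (by positivity)
    have hyr : rx - w ≤ y := by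
      rw [hy]
      apply Real.le_sqrt_of_sq_le
      nlinarith
    have h2 : S ^ 2 ≤ (rx + w) ^ 2 := by
      apply pow_le_pow_left₀ hS0
      linarith [hrS.1]
    apply le_of_sq_le_sq _ (by linarith)
    nlinarith
where
  le_of_sq_le_sq {a b : ℝ} (h : a ^ 2 ≤ b ^ 2) (hb : 0 ≤ b) : a ≤ b := by
    exact le_of_abs_le (by
      have := abs_le_abs_of_sq_le h
      rwa [abs_of_nonneg hb] at this)
  abs_le_abs_of_sq_le {a b : ℝ} (h : a ^ 2 ≤ b ^ 2) : |a| ≤ |b| := sq_le_sq.mp h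

/-- counting -/
theorem count_le {N : ℕ} (F : Finset (Fin N)) (A : Fin N → Prop) (B : Fin N → Prop) (K : ℝ)
    (hF : ∀ t ∈ F, A t ∨ B t)
    (hA : ∀ j < 4, (((Finset.univ.filter fun t : Fin N => (t : ℕ) % 4 = j ∧ A t).card : ℕ) : ℝ)
      ≤ K)
    (hB : ∀ j < 4, (((Finset.univ.filter fun t : Fin N => (t : ℕ) % 4 = j ∧ B t).card : ℕ) : ℝ)
      ≤ K) :
    (F.card : ℝ) ≤ 8 * K := by
  have hsub : F ⊆ ((Finset.range 4).biUnion fun j =>
      Finset.univ.filter fun t : Fin N => (t : ℕ) % 4 = j ∧ A t) ∪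
      ((Finset.range 4).biUnion fun j =>
      Finset.univ.filter fun t : Fin N => (t : ℕ) % 4 = j ∧ B t) := by
    intro t ht
    have h4 : (t : ℕ) % 4 < 4 := Nat.mod_lt _ (by norm_num)
    rw [Finset.mem_union, Finset.mem_biUnion, Finset.mem_biUnion]
    rcases hF t ht with h | h
    · left
      exact ⟨(t : ℕ) % 4, Finset.mem_range.mpr h4, by simp [h]⟩
    · right
      exact ⟨(t : ℕ) % 4, Finset.mem_range.mpr h4, by simp [h]⟩
  have h1 := (Finset.card_le_card hsub).trans (Finset.card_union_le _ _)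
  have h2 : ∀ C : Fin N → Prop,
      (∀ j < 4, (((Finset.univ.filter fun t : Fin N => (t : ℕ) % 4 = j ∧ C t).card : ℕ) : ℝ)
      ≤ K) → ((((Finset.range 4).biUnion fun j =>
      Finset.univ.filter fun t : Fin N => (t : ℕ) % 4 = j ∧ C t).card : ℕ) : ℝ) ≤ 4 * K := by
    intro C hC
    calc ((((Finset.range 4).biUnion fun j =>
        Finset.univ.filter fun t : Fin N => (t : ℕ) % 4 = j ∧ C t).card : ℕ) : ℝ)
        ≤ ((∑ j ∈ Finset.range 4,
          (Finset.univ.filter fun t : Fin N => (t : ℕ) % 4 = j ∧ C t).card : ℕ) : ℝ) := by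
          exact_mod_cast Finset.card_biUnion_le
      _ = ∑ j ∈ Finset.range 4,
          (((Finset.univ.filter fun t : Fin N => (t : ℕ) % 4 = j ∧ C t).card : ℕ) : ℝ) := by
          push_cast; rfl
      _ ≤ ∑ j ∈ Finset.range 4, K := by
          apply Finset.sum_le_sum
          intro j hj
          exact hC j (Finset.mem_range.mp hj)
      _ = 4 * K := by
          rw [Finset.sum_const, Finset.card_range]
          ring
  have h3 := h2 A hA
  have h4 := h2 B hB
  have h5 : (F.card : ℝ) ≤ ((((Finset.range 4).biUnion fun j =>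
      Finset.univ.filter fun t : Fin N => (t : ℕ) % 4 = j ∧ A t).card : ℕ) : ℝ) +
      ((((Finset.range 4).biUnion fun j =>
      Finset.univ.filter fun t : Fin N => (t : ℕ) % 4 = j ∧ B t).card : ℕ) : ℝ) := by
    exact_mod_cast h1
  linarith

end HDEG

open HSOL HDEG Real Filter in
theorem st_HDEG (hL : ST_LEV) : ST_HDEG := by
  filter_upwards [hL] with q hq m hm1 hm2 u hu θ hG pg sg rx hpg hs1 hs2 hr1 hr2
  obtain ⟨hq9, _, _, _, _, _, hmono, hP9, _, hPU, _⟩ := hq
  have hq1 : 1 ≤ q := le_trans (by norm_num) hq9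
  have hqR : (10 ^ 9 : ℝ) ≤ q := by exact_mod_cast hq9
  have hq0 : (0 : ℝ) < q := by exact_mod_cast hq1
  have hqone : (1 : ℝ) ≤ q := by exact_mod_cast hq1
  have hP2 : (Pl q u : ℝ) ≤ 6 * (q : ℝ) ^ 1350 := by
    refine le_trans ?_ hPU
    exact_mod_cast hmono u (UU q) hu
  have hP6 : (10 ^ 6 : ℝ) ≤ (Pl q u : ℝ) := by
    calc (10 ^ 6 : ℝ) ≤ 3 * (q : ℝ) ^ 1 := by rw [pow_one]; linarith
      _ ≤ 3 * (q : ℝ) ^ 9 := by
          have := pow_le_pow_right₀ hqone (show 1 ≤ 9 by norm_num)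
          linarith
      _ ≤ _ := hP9 u
  obtain ⟨hw1, hw2, _, _, hw5⟩ := wH_bd q m u hq9 hm1 hm2 hP2
  have hm1' : (q : ℝ) ^ 1000 ≤ m := by exact_mod_cast hm1
  have hm0 : (0 : ℝ) < m := lt_of_lt_of_le (by positivity) hm1'
  have hw0 : 0 < wH q m u := lt_of_lt_of_le (by positivity) hw1
  set w := wH q m u with hw
  set P : ℝ := (Pl q u : ℝ) with hP
  have hP0 : 0 < P := by linarith [show (0 : ℝ) < 10 ^ 6 by norm_num]
  have hπ := Real.pi_gt_three
  -- `P' = pg - 1`
  have hg1 : 9989 / 10000 * P ≤ pg - 1 := by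
    have h := abs_le.mp hpg
    linarith [h.1]
  have hg2 : pg - 1 ≤ 10011 / 10000 * P := by
    have h := abs_le.mp hpg
    linarith [h.2]
  have hg0 : 0 < pg - 1 := lt_of_lt_of_le (by positivity) hg1
  have hs0 : 0 < sg := by linarith
  set y0 := √((rx - w) ^ 2 + sg ^ 2) with hy0
  have hy00 : 0 ≤ y0 := Real.sqrt_nonneg _
  set L := 2 * w / (pg - 1) with hLdef
  set x := arctan (y0 / (pg - 1)) with hx
  have hL0 : 0 < L := by positivity
  have hx0 : 0 ≤ x := Real.arctan_nonneg.mpr (by positivity)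
  have hx1 : x < π / 2 := Real.arctan_lt_pi_div_two _
  have hL1 : L ≤ 1 := by
    rw [hLdef, div_le_one hg0]
    linarith
  have hLq : qi q 1970 ≤ L := by
    rw [hLdef, le_div_iff₀ hg0]
    have h4 : 0 ≤ qi q 1970 := (qi_pos q 1970 hq1).le
    calc qi q 1970 * (pg - 1) ≤ qi q 1970 * (2 * P) := by
          apply mul_le_mul_of_nonneg_left _ h4
          linarith
      _ = P * (4 * qi q 1970) / 2 := by ring
      _ ≤ w / 2 := by linarith
      _ ≤ 2 * w := by linarith
  -- the main claim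
  have key : ∀ φ : ℝ, 3 / 2 ≤ φ * P → φ * P < 3 → |rx - SH pg sg φ| ≤ w →
      x ≤ φ ∧ φ ≤ x + L := by
    intro φ h1 h2 h3
    obtain ⟨hS1, hS2, hS3⟩ := SH_bd φ P pg sg hP6 h1 h2 hpg hs1 hs2
    obtain ⟨_, _, hT1, hT2⟩ := T_bd φ P pg hP6 h1 h2 hpg
    obtain ⟨hφ0, hφ5, ht1, ht2⟩ := tan_bd φ P hP6 h1 h2
    obtain ⟨h4, h5⟩ := interval sg rx w (tan φ * (pg - 1)) hs0 (by linarith) hw0.le
      (by linarith) (SH pg sg φ) (by linarith) hS3 h3
    have hφ : arctan (tan φ) = φ := by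
      apply Real.arctan_tan
      · linarith
      · have : (1 : ℝ) / 10 ^ 5 < 1 := by norm_num
        linarith
    constructor
    · rw [← hφ, hx]
      apply Real.arctan_strictMono.monotone
      rw [div_le_iff₀ hg0]
      exact h4
    · have h6 : tan φ ≤ y0 / (pg - 1) + L := by
        rw [hLdef, ← add_div, le_div_iff₀ hg0]
        exact h5
      have h7 : φ ≤ arctan (y0 / (pg - 1) + L) := by
        conv_lhs => rw [← hφ]
        exact Real.arctan_strictMono.monotone h6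
      have h8 := arctan_lip (y0 / (pg - 1)) (y0 / (pg - 1) + L) (by linarith)
      linarith
  have hK : ∀ j < 4, ∀ x' : ℝ, 0 ≤ x' → x' + L ≤ π →
      (cnt j θ x' (x' + L) : ℝ) ≤ 51 / 50 * ((m : ℝ) ^ 2 / 8 * (L / π)) := by
    intro j hj x' h1 h2
    have h := (hG.reg j hj x' (x' + L) h1 h2 (by linarith)).2
    rw [add_sub_cancel_left] at h
    exact h
  have hcount := count_le
    (Finset.univ.filter fun t : Fin (NN m) => 3 / 2 ≤ phi (θ t) * P ∧
        phi (θ t) * P < 3 ∧ |rx - SH pg sg (phi (θ t))| ≤ w)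
    (fun t => x ≤ θ t ∧ θ t ≤ x + L) (fun t => π - x - L ≤ θ t ∧ θ t ≤ π - x - L + L)
    (51 / 50 * ((m : ℝ) ^ 2 / 8 * (L / π))) ?_ ?_ ?_
  · refine hcount.trans ?_
    have hLP : L ≤ 2 * w / (9989 / 10000 * P) := by
      rw [hLdef]
      gcongr
    have hm2 : 0 ≤ (m : ℝ) ^ 2 := by positivity
    calc 8 * (51 / 50 * ((m : ℝ) ^ 2 / 8 * (L / π))) = 51 / 50 * (m : ℝ) ^ 2 * (L / π) := by
          ring
      _ ≤ 51 / 50 * (m : ℝ) ^ 2 * (2 * w / (9989 / 10000 * P) / 3) := by
          gcongr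
      _ = (m : ℝ) ^ 2 * w / P * (51 / 50 * 2 * 10000 / 9989 / 3) := by
          field_simp
      _ ≤ (m : ℝ) ^ 2 * w / P * 1 := by
          apply mul_le_mul_of_nonneg_left _ (by positivity)
          norm_num
      _ = (m : ℝ) ^ 2 * w / P := by ring
  · intro t ht
    rw [Finset.mem_filter] at ht
    obtain ⟨_, h1, h2, h3⟩ := ht
    obtain ⟨h4, h5⟩ := key _ h1 h2 h3
    unfold phi at h4 h5
    split_ifs at h4 h5 with h6
    · left; exact ⟨h4, h5⟩
    · right; constructor <;> linarith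
  · intro j hj
    refine le_trans (le_of_eq ?_) (hK j hj x hx0 (by linarith))
    unfold cnt
    refine congrArg _ (congrArg Finset.card ?_)
    ext t
    simp only [Finset.mem_filter, Finset.mem_univ, true_and]
  · intro j hj
    refine le_trans (le_of_eq ?_) (hK j hj (π - x - L) (by linarith) (by linarith))
    unfold cnt
    refine congrArg _ (congrArg Finset.card ?_)
    ext t
    simp only [Finset.mem_filter, Finset.mem_univ, true_and]

end Pool.Agent.Helper72.RA
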