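import Pool.Agent.Helper72.RA.Defs2

set_option autoImplicit false

namespace Pool.Agent.Helper72.RA

namespace HSOL

open Real Filter

theorem tan_bd (φ P : ℝ) (hP : 10 ^ 6 ≤ P) (h1 : 3 / 2 ≤ φ * P) (h2 : φ * P < 3) :
    0 < φ ∧ φ ≤ 1 / 10 ^ 5 ∧ φ ≤ tan φ ∧ tan φ ≤ 10001 / 10000 * φ := by
  have hP0 : 0 < P := by linarith [show (0 : ℝ) < 10 ^ 6 by norm_num]
  have hφ0 : 0 < φ := by
    by_contra h
    have : φ * P ≤ 0 := mul_nonpos_of_nonpos_of_nonneg (not_lt.mp h) hP0.le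
    linarith
  have hφ1 : φ ≤ 1 / 10 ^ 5 := by
    by_contra h
    have h' : 1 / 10 ^ 5 < φ := not_le.mp h
    have : 1 / 10 ^ 5 * 10 ^ 6 ≤ φ * P := by
      apply mul_le_mul h'.le hP (by norm_num) hφ0.le
    norm_num at this
    linarith
  have hπ := Real.pi_gt_three
  have hlt : φ < π / 2 := by
    have : (1 : ℝ) / 10 ^ 5 < 1 := by norm_num
    linarith
  refine ⟨hφ0, hφ1, Real.le_tan hφ0.le hlt, ?_⟩
  have hc := Real.one_sub_sq_div_two_le_cos (x := φ)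
  have hφ2 : φ ^ 2 ≤ 1 / 10 ^ 10 := by
    calc φ ^ 2 ≤ (1 / 10 ^ 5) ^ 2 := by gcongr
      _ = 1 / 10 ^ 10 := by norm_num
  have hc' : 10000 / 10001 ≤ cos φ := by
    have : (10000 : ℝ) / 10001 ≤ 1 - 1 / 10 ^ 10 / 2 := by norm_num
    linarith
  have hc0 : 0 < cos φ := lt_of_lt_of_le (by norm_num) hc'
  rw [Real.tan_eq_sin_div_cos, div_le_iff₀ hc0]
  have hs := Real.sin_le hφ0.le
  calc sin φ ≤ φ := hs
    _ = 10001 / 10000 * φ * (10000 / 10001) := by ring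
    _ ≤ 10001 / 10000 * φ * cos φ := by gcongr

/-- the product `tan φ * (pg - 1)` -/
theorem T_bd (φ P pg : ℝ) (hP : 10 ^ 6 ≤ P) (h1 : 3 / 2 ≤ φ * P) (h2 : φ * P < 3)
    (hpg : |pg - (1 + P)| ≤ (1 + P) / 1000) :
    9989 / 10000 * P ≤ pg - 1 ∧ pg - 1 ≤ 10011 / 10000 * P ∧
    14983 / 10000 ≤ tan φ * (pg - 1) ∧ tan φ * (pg - 1) ≤ 30038 / 10000 := by
  obtain ⟨hφ0, hφ1, ht1, ht2⟩ := tan_bd φ P hP h1 h2
  have hP0 : 0 < P := by linarith [show (0 : ℝ) < 10 ^ 6 by norm_num]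
  rw [abs_le] at hpg
  have h3 : 9989 / 10000 * P ≤ pg - 1 := by linarith [hpg.1]
  have h4 : pg - 1 ≤ 10011 / 10000 * P := by linarith [hpg.2]
  have h5 : 0 ≤ pg - 1 := le_trans (by positivity) h3
  refine ⟨h3, h4, ?_, ?_⟩
  · calc (14983 / 10000 : ℝ) ≤ 3 / 2 * (9989 / 10000) := by norm_num
      _ ≤ φ * P * (9989 / 10000) := by gcongr
      _ = φ * (9989 / 10000 * P) := by ring
      _ ≤ tan φ * (pg - 1) := by
          apply mul_le_mul ht1 h3 (by positivity) (by linarith)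
  · calc tan φ * (pg - 1) ≤ 10001 / 10000 * φ * (10011 / 10000 * P) := by
          apply mul_le_mul ht2 h4 h5 (by positivity)
      _ = φ * P * (10001 / 10000 * (10011 / 10000)) := by ring
      _ ≤ 3 * (10001 / 10000 * (10011 / 10000)) := by gcongr
      _ ≤ 30038 / 10000 := by norm_num

theorem SH_bd (φ P pg sg : ℝ) (hP : 10 ^ 6 ≤ P) (h1 : 3 / 2 ≤ φ * P) (h2 : φ * P < 3)
    (hpg : |pg - (1 + P)| ≤ (1 + P) / 1000) (hs1 : 998 / 1000 ≤ sg) (hs2 : sg ≤ 1102 / 1000) :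
    101 / 100 ≤ SH pg sg φ ∧ SH pg sg φ ≤ 2834 / 1000 ∧
      SH pg sg φ ^ 2 = (tan φ * (pg - 1)) ^ 2 - sg ^ 2 := by
  obtain ⟨_, _, h3, h4⟩ := T_bd φ P pg hP h1 h2 hpg
  set T := tan φ * (pg - 1) with hT
  have hT2 : (14983 / 10000) ^ 2 ≤ T ^ 2 := by gcongr
  have hT2' : T ^ 2 ≤ (30038 / 10000) ^ 2 := by
    have : 0 ≤ T := le_trans (by norm_num) h3
    gcongr
  have hs3 : (998 / 1000) ^ 2 ≤ sg ^ 2 := by gcongr
  have hs4 : sg ^ 2 ≤ (1102 / 1000) ^ 2 := by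
    have : 0 ≤ sg := le_trans (by norm_num) hs1
    gcongr
  have hlo : (101 / 100) ^ 2 ≤ T ^ 2 - sg ^ 2 := by
    have : (101 / 100 : ℝ) ^ 2 ≤ (14983 / 10000) ^ 2 - (1102 / 1000) ^ 2 := by norm_num
    linarith
  have hhi : T ^ 2 - sg ^ 2 ≤ (2834 / 1000) ^ 2 := by
    have : (30038 / 10000 : ℝ) ^ 2 - (998 / 1000) ^ 2 ≤ (2834 / 1000) ^ 2 := by norm_num
    linarith
  unfold SH
  rw [← hT]
  refine ⟨Real.le_sqrt_of_sq_le hlo, ?_, ?_⟩
  · rw [Real.sqrt_le_left (by norm_num)]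
    exact hhi
  · exact Real.sq_sqrt (le_trans (by norm_num) hlo)

/-- the main estimate -/
theorem main_bd (φ P pg sg px sx rx w e : ℝ) (hP : 10 ^ 6 ≤ P) (h1 : 3 / 2 ≤ φ * P)
    (h2 : φ * P < 3) (hpg : |pg - (1 + P)| ≤ (1 + P) / 1000) (hs1 : 998 / 1000 ≤ sg)
    (hs2 : sg ≤ 1102 / 1000) (he0 : 0 ≤ e) (he1 : e ≤ w / 1000) (hw : w ≤ 1 / 1000)
    (hpx : |px - 1| ≤ e) (hsx : |sx - rx| ≤ e) (hrx : |rx - SH pg sg φ| ≤ w) :
    |sx ^ 2 + sg ^ 2 - (tan φ * (pg - px)) ^ 2| ≤ 6 * w := by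
  obtain ⟨hS1, hS2, hS3⟩ := SH_bd φ P pg sg hP h1 h2 hpg hs1 hs2
  obtain ⟨hg1, hg2, hT1, hT2⟩ := T_bd φ P pg hP h1 h2 hpg
  obtain ⟨hφ0, hφ1, ht1, ht2⟩ := tan_bd φ P hP h1 h2
  have hP0 : 0 < P := by linarith [show (0 : ℝ) < 10 ^ 6 by norm_num]
  set S := SH pg sg φ with hS
  set t := tan φ with ht
  have ht0 : 0 ≤ t := by linarith
  have ht3 : t ≤ 1 / 1000 := by
    have : (10001 / 10000 : ℝ) * (1 / 10 ^ 5) ≤ 1 / 1000 := by norm_num
    calc t ≤ 10001 / 10000 * φ := ht2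
      _ ≤ 10001 / 10000 * (1 / 10 ^ 5) := by gcongr
      _ ≤ 1 / 1000 := this
  have hid : sx ^ 2 + sg ^ 2 - (t * (pg - px)) ^ 2 =
      (sx - S) * (sx + S) + (t * (px - 1)) * (t * (pg - 1) + t * (pg - px)) := by
    have : sg ^ 2 = (t * (pg - 1)) ^ 2 - S ^ 2 := by linarith
    rw [this]; ring
  rw [hid]
  have hw0 : 0 ≤ w := by linarith
  rw [abs_le] at hpx hsx hrx
  have ha : |sx - S| ≤ w + e := by
    rw [abs_le]; constructor <;> linarith [hsx.1, hsx.2, hrx.1, hrx.2]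
  have hb : |sx + S| ≤ 5670 / 1000 := by
    rw [abs_le]; constructor <;> linarith [hsx.1, hsx.2, hrx.1, hrx.2]
  have hc : |t * (px - 1)| ≤ e * (1 / 1000) := by
    rw [abs_mul, abs_of_nonneg ht0, mul_comm]
    apply mul_le_mul _ ht3 ht0 he0
    rw [abs_le]; exact hpx
  have hd : |t * (pg - 1) + t * (pg - px)| ≤ 7 := by
    have h3 : t * (pg - px) = t * (pg - 1) - t * (px - 1) := by ring
    have h4 := abs_le.mp hc
    rw [h3, abs_le]
    constructor <;> linarith [h4.1, h4.2]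
  calc |(sx - S) * (sx + S) + (t * (px - 1)) * (t * (pg - 1) + t * (pg - px))|
      ≤ |(sx - S) * (sx + S)| + |(t * (px - 1)) * (t * (pg - 1) + t * (pg - px))| :=
        abs_add_le _ _
    _ = |sx - S| * |sx + S| + |t * (px - 1)| * |t * (pg - 1) + t * (pg - px)| := by
        rw [abs_mul, abs_mul]
    _ ≤ (w + e) * (5670 / 1000) + (e * (1 / 1000)) * 7 := by
        gcongr
    _ ≤ 6 * w := by linarith

theorem qi_pos (q k : ℕ) (hq : 1 ≤ q) : 0 < qi q k := by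
  have hq0 : (0 : ℝ) < q := by exact_mod_cast hq
  unfold qi
  positivity

theorem pow_mul_qi (q a b : ℕ) (hq : 1 ≤ q) : (q : ℝ) ^ a * qi q (a + b) = qi q b := by
  have hq0 : (0 : ℝ) < q := by exact_mod_cast hq
  unfold qi
  rw [pow_add, mul_inv, ← mul_assoc, mul_inv_cancel₀ (by positivity), one_mul]

theorem pow_mul_qi' (q a b : ℕ) (hq : 1 ≤ q) :
    (q : ℝ) ^ (a + b) * qi q b = (q : ℝ) ^ a := by
  have hq0 : (0 : ℝ) < q := by exact_mod_cast hq
  unfold qi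
  rw [pow_add, mul_assoc, mul_inv_cancel₀ (by positivity), mul_one]

/-- smallness of higher powers -/
theorem qi_step (q a b : ℕ) (hq : 10 ^ 9 ≤ q) : qi q (a + (b + 1)) ≤ qi q a / 10 ^ 9 := by
  have hq1 : 1 ≤ q := le_trans (by norm_num) hq
  have hqR : (10 ^ 9 : ℝ) ≤ q := by exact_mod_cast hq
  have hq0 : (0 : ℝ) < q := by exact_mod_cast hq1
  have hqone : (1 : ℝ) ≤ q := by exact_mod_cast hq1
  rw [← pow_mul_qi q (b + 1) a hq1, add_comm (b + 1) a, le_div_iff₀ (by norm_num)]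
  have h1 : (10 ^ 9 : ℝ) ≤ (q : ℝ) ^ (b + 1) := by
    rw [pow_succ]
    calc (10 ^ 9 : ℝ) = 1 * 10 ^ 9 := by ring
      _ ≤ (q : ℝ) ^ b * q := by
        apply mul_le_mul (one_le_pow₀ hqone) hqR (by norm_num) (by positivity)
  rw [mul_comm]
  exact mul_le_mul_of_nonneg_right h1 (qi_pos q _ hq1).le

theorem qi_zero (q : ℕ) : qi q 0 = 1 := by unfold qi; simp

/-- facts about `wH` -/
theorem wH_bd (q m u : ℕ) (hq : 10 ^ 9 ≤ q) (hm1 : q ^ 1000 ≤ m) (hm2 : m ≤ 2 * q ^ 1000)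
    (hP2 : (Pl q u : ℝ) ≤ 6 * (q : ℝ) ^ 1350) :
    (q : ℝ) / m ≤ wH q m u ∧ wH q m u ≤ 1 / 1000 ∧ qi q 999 ≤ wH q m u / 1000 ∧
      300 * (Pl q u : ℝ) ≤ wH q m u * (q : ℝ) ^ 1967 / 200 ∧ 
      (Pl q u : ℝ) * (4 * qi q 1970) ≤ wH q m u := by
  have hq1 : 1 ≤ q := le_trans (by norm_num) hq
  have hqR : (10 ^ 9 : ℝ) ≤ q := by exact_mod_cast hq
  have hq0 : (0 : ℝ) < q := by exact_mod_cast hq1
  have hqone : (1 : ℝ) ≤ q := by exact_mod_cast hq1
  have hm1' : (q : ℝ) ^ 1000 ≤ m := by exact_mod_cast hm1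
  have hm2' : (m : ℝ) ≤ 2 * (q : ℝ) ^ 1000 := by exact_mod_cast hm2
  have hm0 : (0 : ℝ) < m := lt_of_lt_of_le (by positivity) hm1'
  have hqi : ∀ a, 0 < qi q a := fun a => qi_pos q a hq1
  -- bounds for `q / m`
  have hqm : (q : ℝ) / m ≤ qi q 999 := by
    rw [div_le_iff₀ hm0]
    calc (q : ℝ) = (q : ℝ) ^ (1 + 999) * qi q 999 := by rw [pow_mul_qi' q 1 999 hq1, pow_one]
      _ = qi q 999 * (q : ℝ) ^ 1000 := by rw [mul_comm]
      _ ≤ qi q 999 * m := by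
          apply mul_le_mul_of_nonneg_left hm1' (hqi _).le
  have h600 : qi q 600 ≤ 1 / 10 ^ 9 := by
    have h := qi_step q 0 599 hq
    rw [qi_zero] at h
    exact h
  have h998 : qi q 998 ≤ 1 / 10 ^ 9 := by
    have h := qi_step q 0 997 hq
    rw [qi_zero] at h
    exact h
  have h999 : qi q 999 ≤ qi q 998 / 10 ^ 9 := qi_step q 998 0 hq
  have h999' : qi q 999 ≤ qi q 600 / 10 ^ 9 := qi_step q 600 398 hq
  unfold wH
  split_ifs with hc
  · -- `Pl q u ≤ q ^ 900`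
    have hcR : (Pl q u : ℝ) ≤ (q : ℝ) ^ 900 := by exact_mod_cast hc
    have hlo : qi q 998 / 2 ≤ (q : ℝ) ^ 2 / m := by
      rw [le_div_iff₀ hm0]
      have h := pow_mul_qi' q 2 998 hq1
      have e : 2 + 998 = 1000 := by norm_num
      rw [e] at h
      calc qi q 998 / 2 * m ≤ qi q 998 / 2 * (2 * (q : ℝ) ^ 1000) := by
            have h0 : 0 ≤ qi q 998 / 2 := by linarith [hqi 998]
            exact mul_le_mul_of_nonneg_left hm2' h0
        _ = (q : ℝ) ^ 1000 * qi q 998 := by ring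
        _ = (q : ℝ) ^ 2 := h
    have hhi : (q : ℝ) ^ 2 / m ≤ qi q 998 := by
      rw [div_le_iff₀ hm0]
      calc (q : ℝ) ^ 2 = (q : ℝ) ^ (2 + 998) * qi q 998 := (pow_mul_qi' q 2 998 hq1).symm
        _ = qi q 998 * (q : ℝ) ^ 1000 := by rw [mul_comm]
        _ ≤ qi q 998 * m := by
            apply mul_le_mul_of_nonneg_left hm1' (hqi _).le
    refine ⟨?_, ?_, ?_, ?_, ?_⟩
    · have := hqi 998
      have h0 := hqi 999
      linarith
    · linarith
    · have := hqi 998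
      linarith
    · calc 300 * (Pl q u : ℝ) ≤ 300 * (q : ℝ) ^ 900 := by gcongr
        _ ≤ (1 / 400 * (q : ℝ) ^ 69) * (q : ℝ) ^ 900 := by
            have h69 : (10 ^ 9 : ℝ) ≤ (q : ℝ) ^ 69 := by
              calc (10 ^ 9 : ℝ) ≤ (q : ℝ) ^ 1 := by rw [pow_one]; exact hqR
                _ ≤ (q : ℝ) ^ 69 := pow_le_pow_right₀ hqone (by norm_num)
            apply mul_le_mul_of_nonneg_right _ (by positivity)
            linarith
        _ = 1 / 400 * (q : ℝ) ^ 969 := by rw [mul_assoc, ← pow_add]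
        _ = qi q 998 / 2 * (q : ℝ) ^ 1967 / 200 := by
            have h := pow_mul_qi' q 969 998 hq1
            have e : 969 + 998 = 1967 := by norm_num
            rw [e] at h
            rw [← h]
            ring
        _ ≤ (q : ℝ) ^ 2 / m * (q : ℝ) ^ 1967 / 200 := by gcongr
    · have h := pow_mul_qi q 900 1070 hq1
      have e : 900 + 1070 = 1970 := by norm_num
      rw [e] at h
      have h4 : 0 ≤ 4 * qi q 1970 := by linarith [hqi 1970]
      calc (Pl q u : ℝ) * (4 * qi q 1970) ≤ (q : ℝ) ^ 900 * (4 * qi q 1970) :=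
            mul_le_mul_of_nonneg_right hcR h4
        _ = 4 * ((q : ℝ) ^ 900 * qi q 1970) := by ring
        _ = 4 * qi q 1070 := by rw [h]
        _ ≤ 4 * (qi q 998 / 10 ^ 9) := by
            have := qi_step q 998 71 hq
            linarith
        _ ≤ qi q 998 / 2 := by
            have := hqi 998
            linarith
        _ ≤ (q : ℝ) ^ 2 / m := hlo
  · refine ⟨?_, ?_, ?_, ?_, ?_⟩
    · have := hqi 600
      linarith
    · linarith
    · have := hqi 600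
      linarith
    · calc 300 * (Pl q u : ℝ) ≤ 300 * (6 * (q : ℝ) ^ 1350) := by gcongr
        _ ≤ (1 / 200 * (q : ℝ) ^ 17) * (q : ℝ) ^ 1350 := by
            have h17 : (10 ^ 9 : ℝ) ≤ (q : ℝ) ^ 17 := by
              calc (10 ^ 9 : ℝ) ≤ (q : ℝ) ^ 1 := by rw [pow_one]; exact hqR
                _ ≤ (q : ℝ) ^ 17 := pow_le_pow_right₀ hqone (by norm_num)
            rw [← mul_assoc]
            apply mul_le_mul_of_nonneg_right _ (by positivity)
            linarith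
        _ = 1 / 200 * (q : ℝ) ^ 1367 := by rw [mul_assoc, ← pow_add]
        _ = qi q 600 * (q : ℝ) ^ 1967 / 200 := by
            have h := pow_mul_qi' q 1367 600 hq1
            have e : 1367 + 600 = 1967 := by norm_num
            rw [e] at h
            rw [← h]
            ring
    · have h := pow_mul_qi q 1350 620 hq1
      have e : 1350 + 620 = 1970 := by norm_num
      rw [e] at h
      have h4 : 0 ≤ 4 * qi q 1970 := by linarith [hqi 1970]
      calc (Pl q u : ℝ) * (4 * qi q 1970) ≤ (6 * (q : ℝ) ^ 1350) * (4 * qi q 1970) :=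
            mul_le_mul_of_nonneg_right hP2 h4
        _ = 24 * ((q : ℝ) ^ 1350 * qi q 1970) := by ring
        _ = 24 * qi q 620 := by rw [h]
        _ ≤ 24 * (qi q 600 / 10 ^ 9) := by
            have := qi_step q 600 19 hq
            linarith
        _ ≤ qi q 600 := by
            have := hqi 600
            linarith

end HSOL

open HSOL Real Filter in
theorem st_HSOL (hL : ST_LEV) (hN : ST_HNUM) : ST_HSOL := by
  filter_upwards [hL] with q hq m hm1 hm2 u hu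
  obtain ⟨hq9, _, _, _, _, _, hmono, hP9, _, hPU, _⟩ := hq
  have hq1 : 1 ≤ q := le_trans (by norm_num) hq9
  have hqR : (10 ^ 9 : ℝ) ≤ q := by exact_mod_cast hq9
  have hq0 : (0 : ℝ) < q := by exact_mod_cast hq1
  have hqone : (1 : ℝ) ≤ q := by exact_mod_cast hq1
  have hP2 : (Pl q u : ℝ) ≤ 6 * (q : ℝ) ^ 1350 := by
    refine le_trans ?_ hPU
    exact_mod_cast hmono u (UU q) hu
  have hP6 : (10 ^ 6 : ℝ) ≤ (Pl q u : ℝ) := by
    calc (10 ^ 6 : ℝ) ≤ 3 * (q : ℝ) ^ 1 := by rw [pow_one]; linarith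
      _ ≤ 3 * (q : ℝ) ^ 9 := by
          have := pow_le_pow_right₀ hqone (show 1 ≤ 9 by norm_num)
          linarith
      _ ≤ _ := hP9 u
  obtain ⟨hw1, hw2, hw3, hw4, _⟩ := wH_bd q m u hq9 hm1 hm2 hP2
  have hm1' : (q : ℝ) ^ 1000 ≤ m := by exact_mod_cast hm1
  have hm0 : (0 : ℝ) < m := lt_of_lt_of_le (by positivity) hm1'
  have hw0 : 0 < wH q m u := lt_of_lt_of_le (by positivity) hw1
  refine ⟨⟨hw1, hw2⟩, ?_⟩
  intro b pg sg φ hb hpg hs1 hs2 hφ1 hφ2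
  obtain ⟨hS1, hS2, hS3⟩ := SH_bd φ _ pg sg hP6 hφ1 hφ2 hpg hs1 hs2
  refine ⟨⟨hS1, by linarith⟩, ?_⟩
  intro px sx rx hpx hsx hr1 hr2 hrS
  obtain ⟨hg1, hg2, hT1, hT2⟩ := T_bd φ _ pg hP6 hφ1 hφ2 hpg
  obtain ⟨hφ0, hφ5, ht1, ht2⟩ := tan_bd φ _ hP6 hφ1 hφ2
  have he1 : qi q 999 ≤ wH q m u / 1000 := hw3
  have he0 : 0 ≤ qi q 999 := (qi_pos q 999 hq1).le
  have hpx' := abs_le.mp hpx
  have hsx' := abs_le.mp hsx
  have hmain := main_bd φ _ pg sg px sx rx (wH q m u) (qi q 999) hP6 hφ1 hφ2 hpg hs1 hs2 he0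
    he1 hw2 hpx hsx hrS
  have hw4' : 300 * (Pl q u : ℝ) ≤ wH q m u * b / 200 := by
    refine hw4.trans ?_
    gcongr
  have hbP : 1000 * (Pl q u : ℝ) ≤ b := by
    have : wH q m u * b ≤ 1 / 1000 * b := by
      apply mul_le_mul_of_nonneg_right hw2
      exact le_trans (by positivity) hb
    linarith
  have hpgb : pg < b := by linarith
  have hpxpg : px < pg := by linarith [hpx'.2]
  have hB : b ≤ 2 * (b - pg) := by linarith
  have hπ := Real.pi_gt_three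
  have hall := hN (pg - px) (b - pg) sx sg φ (wH q m u) (by linarith [hpx'.2]) hw0 hw2
    (by
      have h1 : pg - px ≤ 2 * (Pl q u : ℝ) := by linarith [hpx'.1]
      have h2 : wH q m u * b ≤ wH q m u * (2 * (b - pg)) := by gcongr
      linarith)
    (by linarith [hsx'.1]) (by linarith [hsx'.2]) (by linarith) (by linarith) hφ0
    (by
      have : (1 : ℝ) / 10 ^ 5 < 1 := by norm_num
      linarith) hmain
  exact ⟨hpxpg, hpgb, hall.1, hall.2⟩

end Pool.Agent.Helper72.RA
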