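import Pool.Agent.Helper72.RA.Defs

set_option autoImplicit false

namespace Pool.Agent.Helper72.RA

namespace SIGN

open Finset

open scoped Classical

/-- affine in each variable -/
def Aff {E : Type} (f : (E → ℝ) → ℝ) : Prop :=
  ∀ (e : E) (y : E → ℝ), ∃ a c : ℝ, ∀ t : ℝ, f (Function.update y e t) = a + c * t

theorem aff_zero {E : Type} : Aff (fun _ : E → ℝ => (0 : ℝ)) := by
  intro e y
  exact ⟨0, 0, fun t => by ring⟩

theorem aff_sum {E ι : Type} (s : Finset ι) (f : ι → (E → ℝ) → ℝ) (h : ∀ i, Aff (f i)) :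
    Aff (fun y => ∑ i ∈ s, f i y) := by
  intro e y
  choose a c hac using fun i => h i e y
  refine ⟨∑ i ∈ s, a i, ∑ i ∈ s, c i, fun t => ?_⟩
  simp only [hac]
  rw [sum_add_distrib, sum_mul]

theorem aff_prod4 {E : Type} (e1 e2 e3 e4 : E) (h12 : e1 ≠ e2) (h13 : e1 ≠ e3) (h14 : e1 ≠ e4)
    (h23 : e2 ≠ e3) (h24 : e2 ≠ e4) (h34 : e3 ≠ e4) :
    Aff (fun y : E → ℝ => y e1 * y e2 * y e3 * y e4) := by
  intro e y
  by_cases h1 : e1 = e
  · subst h1
    refine ⟨0, y e2 * y e3 * y e4, fun t => ?_⟩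
    simp only [Function.update_self, Function.update_of_ne h12.symm,
      Function.update_of_ne h13.symm, Function.update_of_ne h14.symm]
    ring
  by_cases h2 : e2 = e
  · subst h2
    refine ⟨0, y e1 * y e3 * y e4, fun t => ?_⟩
    simp only [Function.update_self, Function.update_of_ne h12,
      Function.update_of_ne h23.symm, Function.update_of_ne h24.symm]
    ring
  by_cases h3 : e3 = e
  · subst h3
    refine ⟨0, y e1 * y e2 * y e4, fun t => ?_⟩
    simp only [Function.update_self, Function.update_of_ne h13,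
      Function.update_of_ne h23, Function.update_of_ne h34.symm]
    ring
  by_cases h4 : e4 = e
  · subst h4
    refine ⟨0, y e1 * y e2 * y e3, fun t => ?_⟩
    simp only [Function.update_self, Function.update_of_ne h14,
      Function.update_of_ne h24, Function.update_of_ne h34]
    ring
  · refine ⟨y e1 * y e2 * y e3 * y e4, 0, fun t => ?_⟩
    simp only [Function.update_of_ne h1, Function.update_of_ne h2, Function.update_of_ne h3,
      Function.update_of_ne h4]
    ring

/-- choose the signs one at a time -/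
theorem choose_signs {E : Type} [Fintype E] (f : (E → ℝ) → ℝ) (hf : Aff f)
    (h0 : f (fun _ => 0) ≤ 0) (u w : E → ℝ) (hu : ∀ e, 0 ≤ u e) (hw : ∀ e, w e ≤ 0) :
    ∃ y : E → ℝ, (∀ e, y e = u e ∨ y e = w e) ∧ f y ≤ 0 := by
  have key : ∀ S : Finset E, ∃ y : E → ℝ, (∀ e ∈ S, y e = u e ∨ y e = w e) ∧
      (∀ e, e ∉ S → y e = 0) ∧ f y ≤ 0 := by
    intro S
    induction S using Finset.induction_on with
    | empty => exact ⟨fun _ => 0, fun e he => absurd he (notMem_empty e), fun _ _ => rfl, h0⟩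
    | insert e S heS ih =>
      obtain ⟨y, hy1, hy2, hy3⟩ := ih
      obtain ⟨a, c, hac⟩ := hf e y
      have ha : a ≤ 0 := by
        have h := hac 0
        have h' : Function.update y e 0 = y := by
          rw [← hy2 e heS, Function.update_eq_self]
        rw [h'] at h
        have h2 : f y = a := by rw [h]; ring
        rw [← h2]; exact hy3
      have hstep : ∀ t : ℝ, (t = u e ∨ t = w e) → c * t ≤ 0 →
          ∃ y : E → ℝ, (∀ e' ∈ insert e S, y e' = u e' ∨ y e' = w e') ∧
            (∀ e', e' ∉ insert e S → y e' = 0) ∧ f y ≤ 0 := by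
        intro t ht hct
        refine ⟨Function.update y e t, ?_, ?_, ?_⟩
        · intro e' he'
          by_cases hee : e' = e
          · subst hee
            rw [Function.update_self]; exact ht
          · rw [Function.update_of_ne hee]
            exact hy1 e' ((mem_insert.mp he').resolve_left hee)
        · intro e' he'
          rw [mem_insert, not_or] at he'
          rw [Function.update_of_ne he'.1]
          exact hy2 e' he'.2
        · rw [hac]; linarith
      rcases le_total 0 c with hc | hc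
      · exact hstep (w e) (Or.inr rfl) (mul_nonpos_of_nonneg_of_nonpos hc (hw e))
      · exact hstep (u e) (Or.inl rfl) (mul_nonpos_of_nonpos_of_nonneg hc (hu e))
  obtain ⟨y, hy1, _, hy3⟩ := key univ
  exact ⟨y, fun e => hy1 e (mem_univ e), hy3⟩

section

variable {K : Type} [Fintype K]

/-- the matrix of a function on the edges -/
noncomputable def xm (y : Sym2 K → ℝ) (i k : K) : ℝ := if i = k then 0 else y s(i, k)

theorem xm_symm (y : Sym2 K → ℝ) (i k : K) : xm y i k = xm y k i := by
  unfold xm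
  by_cases h : i = k
  · rw [if_pos h, if_pos h.symm]
  · rw [if_neg h, if_neg (fun h' => h h'.symm), Sym2.eq_swap]

theorem xm_self (y : Sym2 K → ℝ) (i : K) : xm y i i = 0 := by
  unfold xm; rw [if_pos rfl]

/-- the products -/
noncomputable def tt (y : Sym2 K → ℝ) (i k j l : K) : ℝ :=
  xm y i j * xm y j k * xm y i l * xm y l k

/-- the off-diagonal products -/
noncomputable def gg (y : Sym2 K → ℝ) (i k j l : K) : ℝ :=
  if i ≠ k ∧ j ≠ l then tt y i k j l else 0

theorem aff_gg (i k j l : K) : Aff (fun y : Sym2 K → ℝ => gg y i k j l) := by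
  by_cases h : i ≠ k ∧ j ≠ l
  swap
  · have : (fun y : Sym2 K → ℝ => gg y i k j l) = fun _ => 0 := by
      funext y; unfold gg; rw [if_neg h]
    rw [this]; exact aff_zero
  obtain ⟨hik, hjl⟩ := h
  by_cases hij : i = j
  · have : (fun y : Sym2 K → ℝ => gg y i k j l) = fun _ => 0 := by
      funext y
      unfold gg tt
      rw [if_pos ⟨hik, hjl⟩, hij, xm_self]; ring
    rw [this]; exact aff_zero
  by_cases hjk : j = k
  · have : (fun y : Sym2 K → ℝ => gg y i k j l) = fun _ => 0 := by
      funext y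
      unfold gg tt
      rw [if_pos ⟨hik, hjl⟩, hjk, xm_self]; ring
    rw [this]; exact aff_zero
  by_cases hil : i = l
  · have : (fun y : Sym2 K → ℝ => gg y i k j l) = fun _ => 0 := by
      funext y
      unfold gg tt
      rw [if_pos ⟨hik, hjl⟩, hil, xm_self]; ring
    rw [this]; exact aff_zero
  by_cases hlk : l = k
  · have : (fun y : Sym2 K → ℝ => gg y i k j l) = fun _ => 0 := by
      funext y
      unfold gg tt
      rw [if_pos ⟨hik, hjl⟩, hlk, xm_self]; ring
    rw [this]; exact aff_zero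
  have hfun : (fun y : Sym2 K → ℝ => gg y i k j l) =
      fun y => y s(i, j) * y s(j, k) * y s(i, l) * y s(l, k) := by
    funext y
    unfold gg tt xm
    rw [if_pos ⟨hik, hjl⟩, if_neg hij, if_neg hjk, if_neg hil, if_neg hlk]
  rw [hfun]
  have hne : ∀ a b c d : K, (a ≠ c ∨ b ≠ d) → (a ≠ d ∨ b ≠ c) → s(a, b) ≠ s(c, d) := by
    intro a b c d h1 h2 h
    rcases Sym2.eq_iff.mp h with ⟨h3, h4⟩ | ⟨h3, h4⟩
    · rcases h1 with h1 | h1
      · exact h1 h3
      · exact h1 h4
    · rcases h2 with h2 | h2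
      · exact h2 h3
      · exact h2 h4
  apply aff_prod4
  · exact hne _ _ _ _ (Or.inl hij) (Or.inl hik)
  · exact hne _ _ _ _ (Or.inr hjl) (Or.inl hil)
  · exact hne _ _ _ _ (Or.inl hil) (Or.inl hik)
  · exact hne _ _ _ _ (Or.inl (Ne.symm hij)) (Or.inl hjl)
  · exact hne _ _ _ _ (Or.inl hjl) (Or.inl hjk)
  · exact hne _ _ _ _ (Or.inl hil) (Or.inl hik)

/-- the off-diagonal part -/
noncomputable def psi (y : Sym2 K → ℝ) : ℝ := ∑ i, ∑ k, ∑ j, ∑ l, gg y i k j l

theorem aff_psi : Aff (psi : (Sym2 K → ℝ) → ℝ) := by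
  unfold psi
  apply aff_sum; intro i
  apply aff_sum; intro k
  apply aff_sum; intro j
  apply aff_sum; intro l
  exact aff_gg i k j l

theorem psi_zero : psi (fun _ : Sym2 K => (0 : ℝ)) = 0 := by
  unfold psi
  refine sum_eq_zero fun i _ => sum_eq_zero fun k _ => sum_eq_zero fun j _ =>
    sum_eq_zero fun l _ => ?_
  unfold gg tt xm
  simp

theorem xm_abs (y : Sym2 K → ℝ) (δ : ℝ) (hδ : 0 ≤ δ) (hy : ∀ e, |y e| ≤ δ) (i k : K) :
    |xm y i k| ≤ δ := by
  unfold xm
  split_ifs
  · rw [abs_zero]; exact hδ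
  · exact hy _

theorem tt_le (y : Sym2 K → ℝ) (δ : ℝ) (hδ : 0 ≤ δ) (hy : ∀ e, |y e| ≤ δ) (i k j l : K) :
    tt y i k j l ≤ (if i = k then δ ^ 4 else 0) + (if j = l then δ ^ 4 else 0) +
      gg y i k j l := by
  have hx := xm_abs y δ hδ hy
  have hT : tt y i k j l ≤ δ ^ 4 := by
    refine (le_abs_self _).trans ?_
    unfold tt
    rw [abs_mul, abs_mul, abs_mul]
    calc |xm y i j| * |xm y j k| * |xm y i l| * |xm y l k| ≤ δ * δ * δ * δ := by
          gcongr <;> exact hx _ _
      _ = δ ^ 4 := by ring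
  have hd : 0 ≤ δ ^ 4 := by positivity
  by_cases h : i ≠ k ∧ j ≠ l
  · have : gg y i k j l = tt y i k j l := by unfold gg; rw [if_pos h]
    rw [this, if_neg h.1, if_neg h.2]
    linarith
  · have : gg y i k j l = 0 := by unfold gg; rw [if_neg h]
    rw [this]
    by_cases h1 : i = k
    · rw [if_pos h1]
      split_ifs <;> linarith
    · have h2 : j = l := by
        by_contra h2
        exact h ⟨h1, h2⟩
      rw [if_neg h1, if_pos h2]
      linarith

theorem sum_bound (y : Sym2 K → ℝ) (δ : ℝ) (hδ : 0 ≤ δ) (hy : ∀ e, |y e| ≤ δ) :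
    ∑ i, ∑ k, (∑ j, xm y i j * xm y j k) ^ 2 ≤
      2 * (Fintype.card K : ℝ) ^ 3 * δ ^ 4 + psi y := by
  have h1 : ∀ i k : K, (∑ j, xm y i j * xm y j k) ^ 2 = ∑ j, ∑ l, tt y i k j l := by
    intro i k
    rw [pow_two, sum_mul_sum]
    refine sum_congr rfl fun j _ => sum_congr rfl fun l _ => ?_
    unfold tt
    ring
  calc ∑ i, ∑ k, (∑ j, xm y i j * xm y j k) ^ 2
      = ∑ i, ∑ k, ∑ j, ∑ l, tt y i k j l := by
        refine sum_congr rfl fun i _ => sum_congr rfl fun k _ => h1 i k
    _ ≤ ∑ i, ∑ k, ∑ j, ∑ l, ((if i = k then δ ^ 4 else 0) + (if j = l then δ ^ 4 else 0) +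
          gg y i k j l) := by
        refine sum_le_sum fun i _ => sum_le_sum fun k _ => sum_le_sum fun j _ =>
          sum_le_sum fun l _ => tt_le y δ hδ hy i k j l
    _ = 2 * (Fintype.card K : ℝ) ^ 3 * δ ^ 4 + psi y := by
        simp only [sum_add_distrib]
        unfold psi
        have e1 : ∑ i : K, ∑ k : K, ∑ _j : K, ∑ _l : K, (if i = k then δ ^ 4 else 0) =
            (Fintype.card K : ℝ) ^ 3 * δ ^ 4 := by
          simp only [sum_const, card_univ, nsmul_eq_mul, ← mul_sum, sum_ite_eq, mem_univ,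
            if_true]
          ring
        have e2 : ∑ _i : K, ∑ _k : K, ∑ j : K, ∑ l : K, (if j = l then δ ^ 4 else 0) =
            (Fintype.card K : ℝ) ^ 3 * δ ^ 4 := by
          simp only [sum_const, card_univ, nsmul_eq_mul, sum_ite_eq, mem_univ,
            if_true]
          ring
        rw [e1, e2]
        ring

end

end SIGN

open SIGN in
theorem st_SIGN : ST_SIGN := by
  intro K _ δ u w hδ hus hws hu hw
  let U : Sym2 K → ℝ := Sym2.lift ⟨u, fun a b => hus a b⟩
  let W : Sym2 K → ℝ := Sym2.lift ⟨w, fun a b => hws a b⟩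
  have hU : ∀ e, 0 ≤ U e ∧ U e ≤ δ := by
    intro e
    induction e using Sym2.ind with
    | _ a b => exact hu a b
  have hW : ∀ e, -δ ≤ W e ∧ W e ≤ 0 := by
    intro e
    induction e using Sym2.ind with
    | _ a b => exact hw a b
  obtain ⟨y, hy1, hy2⟩ := choose_signs (psi : (Sym2 K → ℝ) → ℝ) aff_psi
    (le_of_eq psi_zero) U W (fun e => (hU e).1) (fun e => (hW e).2)
  have hyb : ∀ e, |y e| ≤ δ := by
    intro e
    rw [abs_le]
    rcases hy1 e with h | h
    · rw [h]; exact ⟨by linarith [(hU e).1], (hU e).2⟩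
    · rw [h]; exact ⟨(hW e).1, by linarith [(hW e).2]⟩
  refine ⟨xm y, xm_symm y, xm_self y, ?_, ?_⟩
  · intro i k hik
    have h := hy1 s(i, k)
    unfold xm
    rw [if_neg hik]
    exact h
  · have h := sum_bound y δ hδ hyb
    have h3 : 0 ≤ (Fintype.card K : ℝ) ^ 3 * δ ^ 4 := by positivity
    linarith

end Pool.Agent.Helper72.RA
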