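import Pool.Agent.Helper72.RA.Defs

set_option autoImplicit false

namespace Pool.Agent.Helper72.RA

namespace XPROOT

open Real Filter

/-- the quadratic -/
noncomputable def mm (b ps c ρ : ℝ) : ℝ := ps * b + ρ * c * (b - ps) - ρ ^ 2

/-- the quartic polynomial -/
noncomputable def pp (b ps X T s c ρ : ℝ) : ℝ :=
  (ps + b) ^ 2 * (ρ * s) ^ 2 + (b - ρ * c) ^ 2 * X ^ 2 + X ^ 2 * (ρ * s) ^ 2 -
    T ^ 2 * mm b ps c ρ ^ 2

theorem mm_bd (b ps c ρ : ℝ) (hps : 1 ≤ ps) (hb : 10 * ps ≤ b) (hc0 : 0 ≤ c) (hc1 : c ≤ 1)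
    (hρ0 : 0 ≤ ρ) (hρ1 : ρ ≤ 1) : 0 ≤ mm b ps c ρ ∧ mm b ps c ρ ≤ 2 * (ps * b) := by
  unfold mm
  have h1 : 0 ≤ ρ * c := mul_nonneg hρ0 hc0
  have h2 : ρ * c ≤ 1 := by
    calc ρ * c ≤ 1 * 1 := by gcongr
      _ = 1 := by ring
  have h3 : 0 ≤ b - ps := by linarith
  have h4 : ρ ^ 2 ≤ 1 := by
    calc ρ ^ 2 ≤ 1 ^ 2 := by gcongr
      _ = 1 := by ring
  have h5 : 0 ≤ ρ ^ 2 := by positivity
  have h6 : 10 ≤ b := by linarith
  have h7 : b ≤ ps * b := by nlinarith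
  have h8 : ρ * c * (b - ps) ≤ b := by
    calc ρ * c * (b - ps) ≤ 1 * (b - ps) := by gcongr
      _ ≤ b := by linarith
  have h9 : 0 ≤ ρ * c * (b - ps) := mul_nonneg h1 h3
  constructor
  · linarith
  · linarith

theorem pp_zero (b ps X T s c : ℝ) (hps : 1 ≤ ps) (hX : 0 ≤ X)
    (hXT : X ≤ T * ps) : pp b ps X T s c 0 ≤ 0 := by
  unfold pp mm
  have h1 : X ^ 2 ≤ (T * ps) ^ 2 := by gcongr
  have h2 : 0 ≤ b ^ 2 := by positivity
  nlinarith [mul_le_mul_of_nonneg_left h1 h2]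

theorem pp_R (b ps X T s c R : ℝ) (hps : 1 ≤ ps) (hb : 10 * ps ≤ b)
    (hT : 0 ≤ T) (hc0 : 0 ≤ c) (hc1 : c ≤ 1) (hs : 3 / 10 ≤ s) (hR0 : 0 ≤ R) (hR1 : R ≤ 1)
    (hTR : 2 * (T * ps) ≤ 3 / 10 * R) : 0 ≤ pp b ps X T s c R := by
  obtain ⟨hm0, hm1⟩ := mm_bd b ps c R hps hb hc0 hc1 hR0 hR1
  have hb0 : 0 ≤ b := by linarith
  have h1 : T * mm b ps c R ≤ (ps + b) * (R * s) := by
    calc T * mm b ps c R ≤ T * (2 * (ps * b)) := by gcongr
      _ = 2 * (T * ps) * b := by ring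
      _ ≤ 3 / 10 * R * b := by gcongr
      _ = b * (R * (3 / 10)) := by ring
      _ ≤ (ps + b) * (R * s) := by
          apply mul_le_mul
          · linarith
          · gcongr
          · positivity
          · linarith
  have h2 : (T * mm b ps c R) ^ 2 ≤ ((ps + b) * (R * s)) ^ 2 := by
    have h0 : 0 ≤ T * mm b ps c R := mul_nonneg hT hm0
    gcongr
  have h3 : 0 ≤ (b - R * c) ^ 2 * X ^ 2 := by positivity
  have h4 : 0 ≤ X ^ 2 * (R * s) ^ 2 := by positivity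
  unfold pp
  have h5 : (T * mm b ps c R) ^ 2 = T ^ 2 * mm b ps c R ^ 2 := by ring
  have h6 : ((ps + b) * (R * s)) ^ 2 = (ps + b) ^ 2 * (R * s) ^ 2 := by ring
  rw [h5, h6] at h2
  linarith

theorem pp_diff (b ps X T s c r ρ : ℝ) :
    pp b ps X T s c ρ - pp b ps X T s c r = (ρ - r) * ((ps + b) ^ 2 * s ^ 2 * (ρ + r) -
      X ^ 2 * c * (2 * b - (ρ + r) * c) + X ^ 2 * s ^ 2 * (ρ + r) -
      T ^ 2 * (c * (b - ps) - (ρ + r)) * (mm b ps c ρ + mm b ps c r)) := by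
  unfold pp mm
  ring

theorem pp_slope (b ps X T s c r ρ h0 : ℝ) (hps : 1 ≤ ps) (hb : 10 * ps ≤ b) (hX : 0 ≤ X)
    (hX1 : X ≤ 1) (hT : 0 ≤ T) (hTp : T * ps ≤ 1)
    (hc0 : 0 ≤ c) (hc1 : c ≤ 1) (hs0 : 0 ≤ s) (hs1 : s ≤ 1) (hr : 0 ≤ r) (hh0 : 0 < h0)
    (hrρ : r + h0 ≤ ρ) (hρ1 : ρ ≤ 1) (hbh : 20 ≤ b * h0) (hTh : 40 * T ≤ h0) :
    |(ps + b) ^ 2 * s ^ 2 * (ρ + r) -
      X ^ 2 * c * (2 * b - (ρ + r) * c) + X ^ 2 * s ^ 2 * (ρ + r) -
      T ^ 2 * (c * (b - ps) - (ρ + r)) * (mm b ps c ρ + mm b ps c r)| ≤ 3 * b ^ 2 * ρ := by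
  have hρ0 : 0 < ρ := by linarith
  have hrρ' : r ≤ ρ := by linarith
  have hhρ : h0 ≤ ρ := by linarith
  have hb10 : 10 ≤ b := by linarith
  have hb0 : 0 ≤ b := by linarith
  obtain ⟨hm0, hm1⟩ := mm_bd b ps c ρ hps hb hc0 hc1 hρ0.le hρ1
  obtain ⟨hn0, hn1⟩ := mm_bd b ps c r hps hb hc0 hc1 hr (by linarith)
  have hX2 : X ^ 2 ≤ 1 := by
    calc X ^ 2 ≤ 1 ^ 2 := by gcongr
      _ = 1 := by ring
  have hs2 : s ^ 2 ≤ 1 := by
    calc s ^ 2 ≤ 1 ^ 2 := by gcongr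
      _ = 1 := by ring
  have hXX : 0 ≤ X ^ 2 := by positivity
  have hss : 0 ≤ s ^ 2 := by positivity
  -- first term
  have a1 : 0 ≤ (ps + b) ^ 2 * s ^ 2 * (ρ + r) := by positivity
  have a1' : (ps + b) ^ 2 * s ^ 2 * (ρ + r) ≤ 242 / 100 * (b ^ 2 * ρ) := by
    calc (ps + b) ^ 2 * s ^ 2 * (ρ + r) ≤ (11 / 10 * b) ^ 2 * 1 * (2 * ρ) := by
          gcongr
          · linarith
          · linarith
      _ = 242 / 100 * (b ^ 2 * ρ) := by ring
  -- second term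
  have hrc : 0 ≤ (ρ + r) * c := by positivity
  have hrc' : (ρ + r) * c ≤ 2 := by
    calc (ρ + r) * c ≤ 2 * 1 := by
          gcongr
          linarith
      _ = 2 := by ring
  have a2 : 0 ≤ X ^ 2 * c * (2 * b - (ρ + r) * c) := by
    apply mul_nonneg (mul_nonneg hXX hc0)
    linarith
  have a2' : X ^ 2 * c * (2 * b - (ρ + r) * c) ≤ 1 / 10 * (b ^ 2 * ρ) := by
    calc X ^ 2 * c * (2 * b - (ρ + r) * c) ≤ 1 * 1 * (2 * b) := by
          apply mul_le_mul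
          · gcongr
          · linarith
          · linarith
          · norm_num
      _ = 1 / 10 * (b * 20) := by ring
      _ ≤ 1 / 10 * (b * (b * h0)) := by gcongr
      _ ≤ 1 / 10 * (b * (b * ρ)) := by gcongr
      _ = 1 / 10 * (b ^ 2 * ρ) := by ring
  -- third term
  have a3 : 0 ≤ X ^ 2 * s ^ 2 * (ρ + r) := by positivity
  have a3' : X ^ 2 * s ^ 2 * (ρ + r) ≤ 1 / 10 * (b ^ 2 * ρ) := by
    have hbb : 20 ≤ b ^ 2 := by nlinarith
    calc X ^ 2 * s ^ 2 * (ρ + r) ≤ 1 * 1 * (2 * ρ) := by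
          gcongr
          linarith
      _ = 1 / 10 * (20 * ρ) := by ring
      _ ≤ 1 / 10 * (b ^ 2 * ρ) := by gcongr
  -- fourth term
  have hd : |c * (b - ps) - (ρ + r)| ≤ b := by
    have hcb : 0 ≤ c * (b - ps) := mul_nonneg hc0 (by linarith)
    have hcb' : c * (b - ps) ≤ b := by
      calc c * (b - ps) ≤ 1 * (b - ps) := by
            apply mul_le_mul_of_nonneg_right hc1
            linarith
        _ ≤ b := by linarith
    rw [abs_le]
    constructor <;> linarith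
  have a4 : |T ^ 2 * (c * (b - ps) - (ρ + r)) * (mm b ps c ρ + mm b ps c r)| ≤
      1 / 10 * (b ^ 2 * ρ) := by
    rw [abs_mul, abs_mul, abs_of_nonneg (by positivity : 0 ≤ T ^ 2),
      abs_of_nonneg (add_nonneg hm0 hn0)]
    calc T ^ 2 * |c * (b - ps) - (ρ + r)| * (mm b ps c ρ + mm b ps c r)
        ≤ T ^ 2 * b * (4 * (ps * b)) := by
          gcongr
          linarith
      _ = 1 / 10 * (b ^ 2 * (40 * T * (T * ps))) := by ring
      _ ≤ 1 / 10 * (b ^ 2 * (h0 * 1)) := by gcongr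
      _ ≤ 1 / 10 * (b ^ 2 * ρ) := by
          rw [mul_one]
          gcongr
  have hbρ : 0 ≤ b ^ 2 * ρ := by positivity
  rw [abs_le] at a4 ⊢
  obtain ⟨a5, a6⟩ := a4
  constructor <;> linarith

theorem core (b ps X T s c R h0 h1 k : ℝ) (hps : 1 ≤ ps) (hb : 10 * ps ≤ b) (hX : 0 ≤ X)
    (hX1 : X ≤ 1) (hXT : X ≤ T * ps) (hT : 0 ≤ T) (hTp : T * ps ≤ 1)
    (hc0 : 0 ≤ c) (hc1 : c ≤ 1) (hs : 3 / 10 ≤ s) (hs1 : s ≤ 1)
    (hR0 : 0 ≤ R) (hR1 : R ≤ 1 / 2) (hTR : 2 * (T * ps) ≤ 3 / 10 * R)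
    (hh0 : 0 < h0) (hh1 : 0 ≤ h1) (hh : h0 + h1 ≤ 1 / 2) (hbh : 20 ≤ b * h0)
    (hTh : 40 * T ≤ h0) (hk : 0 ≤ k) (hfin : 3 * (h0 + h1) ≤ 27 / 100 * (X * k)) :
    ∃ ρ0 : ℝ, 0 < ρ0 ∧ ρ0 ≤ R + h0 ∧ ∀ ρ : ℝ, ρ0 ≤ ρ → ρ ≤ ρ0 + h1 →
      |pp b ps X T s c ρ| ≤ (ps + b) * (b - ρ * c) * X * (ρ * s) * k := by
  have hcont : ContinuousOn (fun ρ => pp b ps X T s c ρ) (Set.Icc 0 R) := by
    unfold pp mm
    fun_prop
  have hivt := intermediate_value_Icc hR0 hcont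
  have hmem : (0 : ℝ) ∈ Set.Icc (pp b ps X T s c 0) (pp b ps X T s c R) :=
    ⟨pp_zero b ps X T s c hps hX hXT,
      pp_R b ps X T s c R hps hb hT hc0 hc1 hs hR0 (by linarith) hTR⟩
  obtain ⟨r, ⟨hr0, hrR⟩, hr⟩ := hivt hmem
  have hr' : pp b ps X T s c r = 0 := hr
  refine ⟨r + h0, by linarith, by linarith, ?_⟩
  intro ρ hρ0 hρ1
  have hρle : ρ ≤ 1 := by linarith
  have hρpos : 0 < ρ := by linarith
  have hsl := pp_slope b ps X T s c r ρ h0 hps hb hX hX1 hT hTp hc0 hc1 (by linarith) hs1 hr0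
    hh0 hρ0 hρle hbh hTh
  have hd := pp_diff b ps X T s c r ρ
  rw [hr', sub_zero] at hd
  rw [hd, abs_mul, abs_of_nonneg (by linarith : 0 ≤ ρ - r)]
  have hb10 : 10 ≤ b := by linarith
  have hb0 : 0 ≤ b := by linarith
  have hρc : ρ * c ≤ 1 := by
    calc ρ * c ≤ 1 * 1 := by gcongr
      _ = 1 := by ring
  have hfac : b * (9 / 10 * b) ≤ (ps + b) * (b - ρ * c) := by
    apply mul_le_mul
    · linarith
    · linarith
    · linarith
    · linarith
  calc (ρ - r) * |(ps + b) ^ 2 * s ^ 2 * (ρ + r) -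
        X ^ 2 * c * (2 * b - (ρ + r) * c) + X ^ 2 * s ^ 2 * (ρ + r) -
        T ^ 2 * (c * (b - ps) - (ρ + r)) * (mm b ps c ρ + mm b ps c r)|
      ≤ (h0 + h1) * (3 * b ^ 2 * ρ) := by
        apply mul_le_mul
        · linarith
        · exact hsl
        · positivity
        · linarith
    _ = (3 * (h0 + h1)) * (b ^ 2 * ρ) := by ring
    _ ≤ 27 / 100 * (X * k) * (b ^ 2 * ρ) := by gcongr
    _ = b * (9 / 10 * b) * X * (ρ * (3 / 10)) * k := by ring
    _ ≤ (ps + b) * (b - ρ * c) * X * (ρ * s) * k := by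
        have hge : 0 ≤ (ps + b) * (b - ρ * c) := le_trans (by positivity) hfac
        gcongr

/-- `top q` is small -/
theorem top_le (q : ℕ) (hq : 1 ≤ q) : top q ≤ qi q 1350 / 2 := by
  have hq0 : (0 : ℝ) < q := by exact_mod_cast hq
  have h1 : q ^ 1341 ≤ 2 ^ UU q := Nat.le_pow_clog (by norm_num) _
  have h2 : ((q : ℝ) ^ 1341) ≤ (2 : ℝ) ^ UU q := by exact_mod_cast h1
  have h3 : 3 * (q : ℝ) ^ 1350 ≤ (Pl q (UU q) : ℝ) := by
    unfold Pl
    push_cast
    calc 3 * (q : ℝ) ^ 1350 = 3 * (q : ℝ) ^ 9 * (q : ℝ) ^ 1341 := by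
          rw [mul_assoc, ← pow_add]
      _ ≤ 3 * (q : ℝ) ^ 9 * (2 : ℝ) ^ UU q := by gcongr
  have h4 : 0 < 3 * (q : ℝ) ^ 1350 := by positivity
  unfold top qi
  calc (3 / 2 : ℝ) / (Pl q (UU q) : ℝ) ≤ (3 / 2) / (3 * (q : ℝ) ^ 1350) := by gcongr
    _ = ((q : ℝ) ^ 1350)⁻¹ / 2 := by
        field_simp

theorem qi_pos (q k : ℕ) (hq : 1 ≤ q) : 0 < qi q k := by
  have hq0 : (0 : ℝ) < q := by exact_mod_cast hq
  unfold qi
  positivity

theorem qi_mul (q a b : ℕ) : qi q a * qi q b = qi q (a + b) := by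
  unfold qi
  rw [pow_add, mul_inv]

theorem pow_mul_qi (q a b : ℕ) (hq : 1 ≤ q) : (q : ℝ) ^ a * qi q (a + b) = qi q b := by
  have hq0 : (0 : ℝ) < q := by exact_mod_cast hq
  unfold qi
  rw [pow_add, mul_inv, ← mul_assoc, mul_inv_cancel₀ (by positivity), one_mul]

theorem pow_mul_qi' (q a b : ℕ) (hq : 1 ≤ q) :
    (q : ℝ) ^ (a + b) * qi q b = (q : ℝ) ^ a := by
  have hq0 : (0 : ℝ) < q := by exact_mod_cast hq
  unfold qi
  rw [pow_add, mul_assoc, mul_inv_cancel₀ (by positivity), mul_one]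

end XPROOT

open XPROOT Real Filter in
theorem st_XPROOT : ST_XPROOT := by
  filter_upwards [eventually_ge_atTop 100] with q hq
  intro b ps ε1 ε α hb hps1 hps2 he1 he12 he hα1 hα2
  have hq1 : 1 ≤ q := by omega
  have hqR : (100 : ℝ) ≤ q := by exact_mod_cast hq
  have hq0 : (0 : ℝ) < q := by linarith
  have hqone : (1 : ℝ) ≤ q := by linarith
  -- auxiliary facts on powers
  have hpw : ∀ a b : ℕ, (q : ℝ) ^ a * qi q (a + b) = qi q b := fun a b => pow_mul_qi q a b hq1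
  have hpow1 : ∀ a : ℕ, (1 : ℝ) ≤ (q : ℝ) ^ a := fun a => one_le_pow₀ hqone
  have hqp : ∀ a : ℕ, 0 < qi q a := fun a => qi_pos q a hq1
  have hqi1 : ∀ a : ℕ, qi q a ≤ 1 := by
    intro a
    unfold qi
    exact inv_le_one_of_one_le₀ (hpow1 a)
  have hqis : ∀ a b : ℕ, qi q (a + (b + 1)) ≤ qi q a / 100 := by
    intro a b
    rw [← hpw (b + 1) a, add_comm (b + 1) a]
    have h1 : (100 : ℝ) ≤ (q : ℝ) ^ (b + 1) := by
      rw [pow_succ]
      calc (100 : ℝ) = 1 * 100 := by ring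
        _ ≤ (q : ℝ) ^ b * q := by
          apply mul_le_mul (hpow1 b) hqR (by norm_num) (by positivity)
    have h2 := hqp (a + (b + 1))
    rw [le_div_iff₀ (by norm_num)]
    nlinarith
  have htop := top_le q hq1
  have hεpos : 0 < ε := lt_of_lt_of_le (hqp 2005) (he1.trans he12)
  have hε1pos : 0 < ε1 := lt_of_lt_of_le (hqp 2005) he1
  have hεle : ε ≤ qi q 1350 / 2 := he.trans htop
  have hεone : ε ≤ 1 / 2 := by linarith [hqi1 1350]
  have hπ := Real.pi_gt_three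
  have hcosε : 1 / 2 ≤ cos ε := by
    have h := Real.one_sub_sq_div_two_le_cos (x := ε)
    nlinarith
  have hsinε : sin ε ≤ ε := Real.sin_le hεpos.le
  have hTle : tan ε ≤ qi q 1350 := by
    rw [Real.tan_eq_sin_div_cos, div_le_iff₀ (by linarith)]
    nlinarith [hqp 1350]
  have hT0 : 0 ≤ tan ε := (Real.tan_pos_of_pos_of_lt_pi_div_two hεpos (by linarith)).le
  have hT1 : ε1 ≤ tan ε1 := Real.le_tan hε1pos.le (by linarith)
  have hT12 : tan ε1 ≤ tan ε := by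
    rcases eq_or_lt_of_le he12 with h | h
    · rw [h]
    · exact (Real.tan_lt_tan_of_lt_of_lt_pi_div_two (by linarith) (by linarith) h).le
  -- sizes
  have hps0 : 1 ≤ ps := (hpow1 999).trans hps1
  have hTps : tan ε * ps ≤ qi q 349 := by
    calc tan ε * ps ≤ qi q 1350 * (q : ℝ) ^ 1001 := by
          apply mul_le_mul hTle hps2 (by linarith) (hqp _).le
      _ = qi q 349 := by
          rw [mul_comm]
          exact hpw 1001 349
  have hX0 : 0 ≤ ps * tan ε1 := mul_nonneg (by linarith) (by linarith)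
  have hXT : ps * tan ε1 ≤ tan ε * ps := by
    rw [mul_comm (tan ε) ps]
    gcongr
  have hXlow : qi q 1006 ≤ ps * tan ε1 := by
    calc qi q 1006 = (q : ℝ) ^ 999 * qi q 2005 := (hpw 999 1006).symm
      _ ≤ ps * tan ε1 := by
          apply mul_le_mul hps1 (he1.trans hT1) (hqp _).le (by linarith)
  have hb10 : 10 * ps ≤ b := by
    calc 10 * ps ≤ 10 * (q : ℝ) ^ 1001 := by gcongr
      _ ≤ (q : ℝ) ^ 1 * (q : ℝ) ^ 1001 := by
          gcongr
          rw [pow_one]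
          linarith
      _ = (q : ℝ) ^ 1002 := by rw [← pow_add]
      _ ≤ (q : ℝ) ^ 1967 := pow_le_pow_right₀ hqone (by norm_num)
      _ ≤ b := hb
  have hs : 3 / 10 ≤ sin α := by
    have h := Real.mul_le_sin (x := α) (by linarith) (by linarith)
    have hπ4 := Real.pi_lt_d2
    have h2 : 3 / 10 ≤ 2 / π * α := by
      rw [div_mul_eq_mul_div, le_div_iff₀ (by linarith)]
      linarith
    linarith
  have hc : 0 ≤ cos α := Real.cos_nonneg_of_neg_pi_div_two_le_of_le (by linarith) (by linarith)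
  obtain ⟨ρ0, h1, h2, h3⟩ := core b ps (ps * tan ε1) (tan ε) (sin α) (cos α) (qi q 340)
    (qi q 1339) (qi q 1338) (qi q 330) hps0 hb10 hX0
    (hXT.trans (hTps.trans (hqi1 _))) hXT hT0 (hTps.trans (hqi1 _)) hc (Real.cos_le_one α) hs
    (Real.sin_le_one α) (hqp _).le
    (by
      have := hqis 0 339
      have h0 : qi q 0 = 1 := by unfold qi; simp
      rw [h0] at this
      have h' : qi q 340 ≤ 1 / 100 := by
        have e : 0 + (339 + 1) = 340 := by norm_num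
        rw [e] at this
        exact this
      linarith)
    (by
      have h := hqis 340 8
      have e : 340 + (8 + 1) = 349 := by norm_num
      rw [e] at h
      have h0 := hqp 340
      linarith)
    (hqp _) (hqp _).le
    (by
      have h := hqis 0 1338
      have h' := hqis 0 1337
      have h0 : qi q 0 = 1 := by unfold qi; simp
      rw [h0] at h h'
      have e : 0 + (1338 + 1) = 1339 := by norm_num
      have e' : 0 + (1337 + 1) = 1338 := by norm_num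
      rw [e] at h
      rw [e'] at h'
      linarith)
    (by
      calc (20 : ℝ) ≤ (q : ℝ) ^ 1 := by rw [pow_one]; linarith
        _ ≤ (q : ℝ) ^ 628 := pow_le_pow_right₀ hqone (by norm_num)
        _ = (q : ℝ) ^ (628 + 1339) * qi q 1339 := (pow_mul_qi' q 628 1339 hq1).symm
        _ ≤ b * qi q 1339 := by
            apply mul_le_mul_of_nonneg_right _ (hqp _).le
            exact hb)
    (by
      have h := hqis 1339 10
      have e : 1339 + (10 + 1) = 1350 := by norm_num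
      rw [e] at h
      have h0 := hqp 1339
      linarith)
    (hqp _).le
    (by
      have h := hqis 1336 2
      have h' := hqis 1336 1
      have e : 1336 + (2 + 1) = 1339 := by norm_num
      have e' : 1336 + (1 + 1) = 1338 := by norm_num
      rw [e] at h
      rw [e'] at h'
      have hk : qi q 1336 ≤ ps * tan ε1 * qi q 330 := by
        calc qi q 1336 = qi q 1006 * qi q 330 := (qi_mul q 1006 330).symm
          _ ≤ ps * tan ε1 * qi q 330 := by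
              apply mul_le_mul_of_nonneg_right hXlow (hqp _).le
      have h0 := hqp 1336
      linarith)
  refine ⟨ρ0, h1, ?_, ?_⟩
  · have h := hqis 300 39
    have h' := hqis 300 1038
    have e : 300 + (39 + 1) = 340 := by norm_num
    have e' : 300 + (1038 + 1) = 1339 := by norm_num
    rw [e] at h
    rw [e'] at h'
    have h0 := hqp 300
    linarith
  · intro ρ hρ1 hρ2
    have h := h3 ρ hρ1 hρ2
    have hid : (ps + b) ^ 2 * (ρ * sin α) ^ 2 + (b - ρ * cos α) ^ 2 * (ps * tan ε1) ^ 2 +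
          (ps * tan ε1) ^ 2 * (ρ * sin α) ^ 2 -
          tan ε ^ 2 * ((ρ * cos α + ps) * (b - ρ * cos α) - (ρ * sin α) ^ 2) ^ 2 =
        pp b ps (ps * tan ε1) (tan ε) (sin α) (cos α) ρ := by
      have hm : (ρ * cos α + ps) * (b - ρ * cos α) - (ρ * sin α) ^ 2 = mm b ps (cos α) ρ := by
        unfold mm
        have hsc : sin α ^ 2 = 1 - cos α ^ 2 := by
          rw [← Real.sin_sq_add_cos_sq α]; ring
        rw [mul_pow, hsc]
        ring
      rw [hm]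
      unfold pp
      ring
    rw [hid]
    exact h

end Pool.Agent.Helper72.RA
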